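import Pool.Agent.N381.SG.Fin

set_option autoImplicit false

/-!
# 3SUM-Indexing: quadratic space for tables made from sums of answers modulo `M` and from protocols

The content of every cell of the data structures of the theorem is an arbitrary function of

* `r` sums modulo `M`; each of them is the sum of the numbers `coef z` over all integers `z` for which the
  answer is positive (any coefficients, fixed in advance, one for each query), plus the sum of the
  numbers `mult (a + b)` over all pairs of an element `a` of the first set and an element `b` of the second
  set (so the numbers of representations can be summed as well), plus an arbitrary function of the first
  set, plus an arbitrary function of the second set;
* the part which contains the pair of sets, of a partition of all pairs of sets into `V` rectangles, for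
  instance the transcript of a protocol of two players who know one of the sets each.

The queries are adaptive and may be computed in any way; they read `t` cells. The data structure may be
random, and has to answer every query correctly with probability at least `1 / 2 + δ` for all pairs of
sets. Only the cells in which some `coef` or `mult` is not zero count as space; so any separate
preprocessing of the two sets, of any size, is free, and so are all cells computed by short protocols.
The model contains the cells which are arbitrary functions of `r` answers (`M = 2`, `V = 1`). For
every `M` there is a constant `C` with

  `(δ / (M ^ r V) ^ t) ^ (20 M + 5) * n ^ 2 ≤ C (r s + 1)`.

So a truly subquadratic space requires `t (r log M + log V) = Ω(log n)` for every fixed modulus `M`, even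
for success probability `1 / 2 + n ^ (-o(1))`.

Proof. The hard sets: the first one has one element in each of `k` blocks, at the position `x i < h` of
the block, the second one has the elements of a random subset `Y j` of an interval of length `v` in each
of `k` larger blocks; all sums for the pair `(i, j)` of blocks are in an own interval. A query algorithm
expands into few products of a character of a combination of the sums and of one-sided functions.
A combination of the sums gives a sequence modulo `M` in the interval of every pair. The sequences are
divided by the operator `(X - 1) (X ^ 2 - 1) ⋯ (X ^ (h - 1) - 1)`. If it does not annihilate the sequence
in the middle of the interval, the `h` windows of the sequence are different. A combination with many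
such pairs has such pairs in many columns or in many rows. In the first case the product structure over
the sets `Y j` gives a small discrepancy. In the second case we use that the sums of `h` different
vectors modulo `M` along a random set are all equal, up to given constants, with probability at most
`h ^ (-c)`. If the operator annihilates the sequence of the pair of the target, two different windows
differ in many places, and the discrepancy with the answer to the target is small whatever the other
sequences are. The pairs which remain have a combination of the sums which is not annihilated at this
pair and at few other pairs only; the number of these pairs is at most a constant times `r s`, because
the combinations of the sums form a group with at most `M ^ (r s)` elements.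
-/

namespace Pool.Agent.Results.MP_e016b3_lc.SumProtocolTables

open Pool.Agent.N381.SG

/-- For every `M` there is `C` such that every random data structure for two sets of at most `n` integers
from `{0, …, 2 n ^ 2}`, in which the content of every cell is a function of `r` sums modulo `M` of answers
and of numbers of representations (with coefficients fixed in advance, plus a function of the
first set plus a function of the second set) and of the part of a partition of the pairs of sets
into `V` rectangles, which answers every query correctly, with `t` adaptive cell probes, with probability
at least `1 / 2 + δ`, and in which answers or numbers of representations enter at most `s` cells, satisfies
`(δ / (M ^ r V) ^ t) ^ (20 M + 5) n ^ 2 ≤ C (r s + 1)`. -/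
theorem result (M : ℕ) (hM : 1 ≤ M) : ∃ C : ℝ, 0 < C ∧
    ∀ (n r V t s : ℕ) (δ : ℝ), 1 ≤ V → 0 < δ → δ ≤ 1 / 2 →
      ∀ (Ω : Type) [Fintype Ω] (p : Ω → ℝ) (D : Ω → Tables M r V t),
        Solves n p D δ → (∀ ω, (D ω).space ≤ s) →
          (δ / ((M : ℝ) ^ r * V) ^ t) ^ (20 * M + 5) * (n : ℝ) ^ 2 ≤ C * (r * s + 1) :=
  final M hM

end Pool.Agent.Results.MP_e016b3_lc.SumProtocolTables
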