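import Pool.Agent.N631.SX.Main3

/-!
# 3SUM-Indexing: a polynomial trade-off for cells made from exclusive ors of answers and protocols

Two arrays of `n` integers from `{0, …, n ^ 3}` are preprocessed; a query `z` asks whether `z` is the
sum of an element of the first array and an element of the second array. The data structures of the
theorem (`CellDS`) consist of cells. The content of every cell (an element of any set `Γ`) is an
arbitrary function of `r` bits and of the `d` bits of a protocol of two players, who know one of the
arrays each. Every one of the `r` bits is the exclusive or of

* the answers to the queries `z` in a set `Q` of integers (any set, of any size; it is fixed in advance),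
* an arbitrary function of the first array,
* an arbitrary function of the second array.

So a cell can be an arbitrary function of any `r` answers, or a word with `w = r` such bits, or the
result of any joint computation of the two players with `d` bits of communication. The queries are
adaptive and may be computed in any way. The data structure may be random; for all arrays and all `z`
it has to read at most `t` cells and to answer correctly with probability at least `1 / 2 + δ`. Only
the `s` cells in which answers enter (some `Q` is not empty) count as space: the cells which are
computed by protocols are free, and their number is not restricted. We show

  `δ ^ 10 * n ^ 2 ≤ 10 ^ 22 * ((r + d) * t) ^ 4 * (r * s + 1)`.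

So space `n ^ (2 - ε)` requires `(r + d) t` to be at least about `n ^ (ε / 5)` (`n ^ (ε / 4)` for constant
`r`), and query time `n ^ o(1)` requires space `n ^ (2 - o(1))`, as in the conjecture, for words of
`n ^ o(1)` bits and even for advantage `δ = n ^ (- o(1))`. For single bits (`r = 1`, `d = 0`) this is the
model of the starting result `XorTables`; its bound `δ ^ 9 n ^ 2 ≤ 100 * 256 ^ t (s + 1)` says nothing for
more than `(log₂ n) / 4` bit probes, so not even for a constant number of probes of words of `log₂ n`
bits. Its hard arrays cannot give more: in every pair of blocks the first array has only one element
there, so that `O(log n)` bits of the first array are enough for a query.

Proof. A cell is read with `r + d` probes of bits which are exclusive ors of answers and of functions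
of one array: `r` bits and the messages of the players. So let all cells be such bits. Let `m = 1400 t`,
`q = 100 t`, `ρ = 1401 t`. The hard arrays code two families `X i`, `Y j` (`i, j < k`) of subsets of a
universe with `v = m ^ 2 + 2 (q + 1) ≤ ρ ^ 2` elements; here `k` is about `n / (6000 t)`. Every block of
the arrays is padded with about `ρ` elements, such that the sums of the padding (all numbers with two
digits in base `ρ`) fill two intervals, and the answers in the block of sums of the pair `(i, j)` are
constant or a function of one of the arrays, except for one answer, which says whether `X i` and `Y j`
meet. So every bit is the exclusive or of the answers for a set `P` of pairs and of functions of the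
two arrays. For the query of the pair `(i, j)` we use random families: on the first part of the
universe (`m ^ 2` elements) only `X i` and `Y j` have elements, independently with probability `1 / m`.
On the second part (`q + 1` elements) the `X i'` are uniformly random and the `Y j'` are random single
elements, on the third part it is the other way round, but the parts of `X i` and `Y j` do not meet
there. So all sets but `X i`, `Y j` have only `q + 2` elements, and the arrays have room for them. We
take first the probability `99 / 100`.

*Heavy exclusive ors.* If `P` contains pairs in at least `q` columns `j' ≠ j` (or rows `i' ≠ i`) then the
exclusive or has discrepancy at most `(7 / 10) ^ (q / 2)`: by Cauchy and Schwarz we get two copies of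
the sets `X` on the second part; the average over `Y j'` of the product of the signs in the column
`j'` is at most the fraction of the positions at which some exclusive or of differences of the copies
is zero, since a random element of `Y j'` on the third part enters; then the inequality between the
arithmetic and geometric means reduces the product over `q` columns to a single column.

*Light exclusive ors.* The indicator of the event that the memory leads to a leaf of the decision
tree is the average of the signs of the exclusive ors of the bits on the path. Those which are not in
the span of the light ones (at most `q ^ 2` pairs) are negligible. If no light one contains the
pair `(i, j)` then, for fixed other parts of the families, the rest is the indicator of a union of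
`2 ^ t` rectangles in the space of the pairs of subsets of the first part, and by the two-point
inequality of `Pool.Agent.W959` in each large rectangle a constant fraction of the pairs of sets
meet, so the error is more than `1 / 80`.

*Linear algebra.* For at most `s q ^ 2` pairs `(i, j)` there is a vector in the span of the `s` sets `P`
which is light and contains `(i, j)`: all of these vectors are sums of at most `s` of them, so the
supports of these, each with at most `q ^ 2` elements, contain all the pairs. For most pairs the error
is at most `1 / 100` on the average, and therefore `k ^ 2 ≤ 5 s q ^ 2`.

*Small advantage.* `O(1 / δ ^ 2)` independent copies of the structure and the majority of their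
answers give a structure of the same kind with probability `99 / 100` (Chebyshev).
-/

set_option autoImplicit false

namespace Pool.Agent.Results.MP_e016b3_lc.XorTablesTradeoff

open Pool.Agent.N631.SX

/-- A random data structure for two arrays of `n` integers from `{0, …, n ^ 3}`, in which the content of
every cell is an arbitrary function of `r ≥ 1` exclusive ors of answers, of a function of the first
array and of a function of the second array, and of the `d` bits of a protocol between the two arrays,
which answers every query correctly, reading at most `t ≥ 1` cells, with probability at least
`1 / 2 + δ`, and in which answers enter at most `s` cells, satisfies
`δ ^ 10 * n ^ 2 ≤ 10 ^ 22 * ((r + d) * t) ^ 4 * (r * s + 1)`. -/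
theorem result (n c r d t s : ℕ) (Γ : Type) (hr : 1 ≤ r) (ht : 1 ≤ t) (δ : ℝ) (hδ : 0 < δ)
    (hδ2 : δ ≤ 1 / 2) (Ω : Type) [Fintype Ω] (p : Ω → ℝ) (D : Ω → CellDS n c r d Γ)
    (hs : ∀ ω, (D ω).space ≤ s) (hD : CellSolves p D t δ) :
    δ ^ 10 * (n : ℝ) ^ 2 ≤ 10 ^ 22 * (((r : ℝ) + d) * t) ^ 4 * (r * s + 1) :=
  main3 n t c s r d Γ ht hr δ hδ hδ2 Ω p D hs hD

end Pool.Agent.Results.MP_e016b3_lc.XorTablesTradeoff
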